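import Mathlib

set_option autoImplicit false

/-!
# Project BD5 of helper967: a kernel of exponential type and the shift of a vertical line (helper325)
-/

namespace Pool.Agent.N325.G

open Complex MeasureTheory Filter Topology

/-- `sin w / w` -/
noncomputable def sc (w : ℂ) : ℂ := dslope Complex.sin 0 w

lemma sc_diff : Differentiable ℂ sc := by
  rw [← differentiableOn_univ]
  exact (Complex.differentiableOn_dslope (f := Complex.sin) (c := 0) Filter.univ_mem).mpr
    Complex.differentiable_sin.differentiableOn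

lemma sc_ne {w : ℂ} (h : w ≠ 0) : sc w = Complex.sin w / w := by
  unfold sc
  rw [dslope_of_ne _ h, slope_def_field]
  simp

lemma sc_zero : sc 0 = 1 := by
  unfold sc
  rw [dslope_same]
  simp

lemma norm_sin_le (w : ℂ) : ‖Complex.sin w‖ ≤ Real.exp |w.im| := by
  unfold Complex.sin
  rw [norm_div, norm_mul, Complex.norm_I, mul_one]
  have h2 : ‖(2 : ℂ)‖ = 2 := by simp
  rw [h2, div_le_iff₀ (by norm_num)]
  refine (norm_sub_le _ _).trans ?_
  rw [Complex.norm_exp, Complex.norm_exp]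
  have e1 : (-w * I).re = w.im := by simp
  have e2 : (w * I).re = -w.im := by simp
  rw [e1, e2]
  have h3 : Real.exp w.im ≤ Real.exp |w.im| := Real.exp_le_exp.mpr (le_abs_self _)
  have h4 : Real.exp (-w.im) ≤ Real.exp |w.im| := Real.exp_le_exp.mpr (neg_le_abs _)
  linarith

lemma sc_bound : ∃ M : ℝ, 1 ≤ M ∧ ∀ w : ℂ, ‖sc w‖ ≤ 2 * M * Real.exp |w.im| / (1 + |w.re|) := by
  obtain ⟨M, hM⟩ := (isCompact_closedBall (0 : ℂ) 1).exists_bound_of_continuousOn
    sc_diff.continuous.continuousOn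
  refine ⟨max M 1, le_max_right _ _, ?_⟩
  intro w
  have hre : |w.re| ≤ ‖w‖ := Complex.abs_re_le_norm w
  have hpos : 0 < 1 + |w.re| := by positivity
  have hexp : 1 ≤ Real.exp |w.im| := Real.one_le_exp (abs_nonneg _)
  have hM1 : 1 ≤ max M 1 := le_max_right _ _
  rw [le_div_iff₀ hpos]
  rcases le_total ‖w‖ 1 with h | h
  · have h1 : ‖sc w‖ ≤ max M 1 := (hM w (by simpa using h)).trans (le_max_left _ _)
    have h2 : 1 + |w.re| ≤ 2 := by linarith
    have h0 : 0 ≤ ‖sc w‖ := norm_nonneg _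
    calc ‖sc w‖ * (1 + |w.re|) ≤ max M 1 * 2 := by
          apply mul_le_mul h1 h2 hpos.le (by linarith)
      _ = 2 * max M 1 * 1 := by ring
      _ ≤ 2 * max M 1 * Real.exp |w.im| := by
          apply mul_le_mul_of_nonneg_left hexp
          linarith
  · have hw : w ≠ 0 := by
      intro h0
      rw [h0, norm_zero] at h
      linarith
    have hw' : 0 < ‖w‖ := norm_pos_iff.mpr hw
    rw [sc_ne hw, norm_div]
    have h1 := norm_sin_le w
    have h2 : 1 + |w.re| ≤ 2 * ‖w‖ := by linarith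
    calc ‖Complex.sin w‖ / ‖w‖ * (1 + |w.re|) ≤ Real.exp |w.im| / ‖w‖ * (2 * ‖w‖) := by
          apply mul_le_mul _ h2 hpos.le (by positivity)
          exact div_le_div_of_nonneg_right h1 hw'.le
      _ = 2 * 1 * Real.exp |w.im| := by field_simp
      _ ≤ 2 * max M 1 * Real.exp |w.im| := by
          apply mul_le_mul_of_nonneg_right _ (Real.exp_pos _).le
          linarith

lemma sc_real (u : ℝ) : ∃ x : ℝ, sc (u : ℂ) = (x : ℂ) ∧ (|u| ≤ 1 → 3 / 4 ≤ x) := by
  by_cases hu : u = 0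
  · refine ⟨1, ?_, fun _ => by norm_num⟩
    rw [hu]
    simp [sc_zero]
  · refine ⟨Real.sin u / u, ?_, ?_⟩
    · rw [sc_ne (by exact_mod_cast hu)]
      push_cast
      rfl
    · intro h
      have key : ∀ v : ℝ, 0 < v → v ≤ 1 → 3 / 4 ≤ Real.sin v / v := by
        intro v hv hv1
        rw [le_div_iff₀ hv]
        have h1 := Real.sin_gt_sub_cube hv
        have h2 : v ^ 3 ≤ v := by nlinarith [sq_nonneg v, mul_pos hv hv]
        linarith
      rcases lt_or_gt_of_ne hu with h1 | h1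
      · have h2 := key (-u) (by linarith) (by rw [abs_of_neg h1] at h; exact h)
        rw [Real.sin_neg, neg_div_neg_eq] at h2
        exact h2
      · exact key u h1 (by rw [abs_of_pos h1] at h; exact h)

/-- a nonnegative kernel of exponential type `1` -/
theorem kerL0 : ∃ (k : ℂ → ℂ) (c C : ℝ), Differentiable ℂ k ∧ 0 < c ∧ 0 < C ∧
    (∀ u : ℝ, 0 ≤ (k u).re ∧ (k u).im = 0) ∧ (∀ u : ℝ, |u| ≤ 1 → c ≤ (k u).re) ∧
    (∀ z : ℂ, ‖k z‖ ≤ C * Real.exp |z.im| / (1 + |z.re|) ^ 4) := by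
  obtain ⟨M, hM1, hM⟩ := sc_bound
  refine ⟨fun z => sc (z / 4) ^ 4, (3 / 4) ^ 4, (8 * M) ^ 4, ?_, by norm_num, by positivity, ?_, ?_,
    ?_⟩
  · exact (sc_diff.comp (differentiable_id.div_const 4)).pow 4
  · intro u
    obtain ⟨x, hx, _⟩ := sc_real (u / 4)
    have e : ((u : ℂ) / 4) = ((u / 4 : ℝ) : ℂ) := by push_cast; ring
    simp only [e, hx]
    rw [← Complex.ofReal_pow, Complex.ofReal_re, Complex.ofReal_im]
    exact ⟨by positivity, rfl⟩
  · intro u hu
    obtain ⟨x, hx, hx1⟩ := sc_real (u / 4)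
    have e : ((u : ℂ) / 4) = ((u / 4 : ℝ) : ℂ) := by push_cast; ring
    simp only [e, hx]
    rw [← Complex.ofReal_pow, Complex.ofReal_re]
    have h1 : |u / 4| ≤ 1 := by
      rw [abs_div]
      have : |(4 : ℝ)| = 4 := by norm_num
      rw [this]
      linarith
    exact pow_le_pow_left₀ (by norm_num) (hx1 h1) 4
  · intro z
    show ‖sc (z / 4) ^ 4‖ ≤ _
    rw [norm_pow]
    have h1 := hM (z / 4)
    have e1 : (z / 4).im = z.im / 4 := by
      have : (4 : ℂ) = ((4 : ℝ) : ℂ) := by push_cast; rfl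
      rw [this, Complex.div_ofReal_im]
    have e2 : (z / 4).re = z.re / 4 := by
      have : (4 : ℂ) = ((4 : ℝ) : ℂ) := by push_cast; rfl
      rw [this, Complex.div_ofReal_re]
    rw [e1, e2] at h1
    have h2 := pow_le_pow_left₀ (norm_nonneg _) h1 4
    refine h2.trans ?_
    rw [div_pow, mul_pow, ← Real.exp_nat_mul]
    have e3 : ((4 : ℕ) : ℝ) * |z.im / 4| = |z.im| := by
      rw [abs_div]
      have : |(4 : ℝ)| = 4 := by norm_num
      rw [this]
      push_cast
      ring
    rw [e3]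
    have hp : 0 < 1 + |z.re| := by positivity
    have hq : 0 < 1 + |z.re / 4| := by positivity
    have h5 : (1 + |z.re|) ≤ 4 * (1 + |z.re / 4|) := by
      rw [abs_div]
      have : |(4 : ℝ)| = 4 := by norm_num
      rw [this]
      have := abs_nonneg z.re
      linarith
    rw [div_le_div_iff₀ (by positivity) (by positivity)]
    have h6 : (1 + |z.re|) ^ 4 ≤ (4 * (1 + |z.re / 4|)) ^ 4 := pow_le_pow_left₀ hp.le h5 4
    calc (2 * M) ^ 4 * Real.exp |z.im| * (1 + |z.re|) ^ 4 ≤
        (2 * M) ^ 4 * Real.exp |z.im| * (4 * (1 + |z.re / 4|)) ^ 4 :=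
          mul_le_mul_of_nonneg_left h6 (by positivity)
      _ = (8 * M) ^ 4 * Real.exp |z.im| * (1 + |z.re / 4|) ^ 4 := by ring

/-- shift of a vertical line -/
theorem sh0 : ∀ (H : ℂ → ℂ) (σ1 σ2 B : ℝ), σ1 ≤ σ2 →
    (∀ s : ℂ, σ1 ≤ s.re → s.re ≤ σ2 → DifferentiableAt ℂ H s) →
    (∀ s : ℂ, σ1 ≤ s.re → s.re ≤ σ2 → ‖H s‖ ≤ B / (1 + |s.im|) ^ 2) →
    ∫ u : ℝ, H (σ1 + u * I) = ∫ u : ℝ, H (σ2 + u * I) := by
  intro H σ1 σ2 B h12 hd hb
  have hB : 0 ≤ B := by
    have h := hb σ1 (by simp) (by simpa using h12)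
    have h0 := norm_nonneg (H σ1)
    simp only [Complex.ofReal_im, abs_zero, add_zero, one_pow, div_one] at h
    linarith
  -- integrability on vertical lines
  have hint : ∀ σ : ℝ, σ1 ≤ σ → σ ≤ σ2 → Integrable fun u : ℝ => H (σ + u * I) := by
    intro σ h1 h2
    have hc : Continuous fun u : ℝ => H (σ + u * I) := by
      rw [continuous_iff_continuousAt]
      intro u
      have hH := (hd (σ + u * I) (by simpa using h1) (by simpa using h2)).continuousAt
      have hg : ContinuousAt (fun u : ℝ => (σ : ℂ) + u * I) u := by fun_prop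
      exact ContinuousAt.comp (f := fun u : ℝ => (σ : ℂ) + u * I) (g := H) hH hg
    apply Integrable.mono' (g := fun u : ℝ => B * (1 + u ^ 2)⁻¹)
      (integrable_inv_one_add_sq.const_mul B) hc.aestronglyMeasurable
    filter_upwards with u
    have h := hb (σ + u * I) (by simpa using h1) (by simpa using h2)
    have him : ((σ : ℂ) + u * I).im = u := by simp
    rw [him] at h
    refine h.trans ?_
    rw [div_eq_mul_inv]
    apply mul_le_mul_of_nonneg_left _ hB
    apply inv_anti₀ (by positivity)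
    have h3 : |u| ^ 2 = u ^ 2 := sq_abs u
    nlinarith [abs_nonneg u]
  have hi1 := hint σ1 le_rfl h12
  have hi2 := hint σ2 h12 le_rfl
  -- the limits of the vertical integrals
  have ht1 : Tendsto (fun T : ℝ => ∫ u in (-T)..T, H (σ1 + u * I)) atTop
      (𝓝 (∫ u : ℝ, H (σ1 + u * I))) :=
    intervalIntegral_tendsto_integral hi1 tendsto_neg_atTop_atBot tendsto_id
  have ht2 : Tendsto (fun T : ℝ => ∫ u in (-T)..T, H (σ2 + u * I)) atTop
      (𝓝 (∫ u : ℝ, H (σ2 + u * I))) :=
    intervalIntegral_tendsto_integral hi2 tendsto_neg_atTop_atBot tendsto_id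
  -- the rectangle
  have hrect : ∀ T : ℝ, 0 ≤ T → ‖(∫ u in (-T)..T, H (σ2 + u * I)) - ∫ u in (-T)..T, H (σ1 + u * I)‖ ≤
      2 * (B * (σ2 - σ1)) / (1 + T) ^ 2 := by
    intro T hT
    have hR := Complex.integral_boundary_rect_eq_zero_of_differentiableOn H (σ1 + (-T : ℝ) * I)
      (σ2 + (T : ℝ) * I) (by
        intro s hs
        rw [Complex.mem_reProdIm] at hs
        simp only [add_re, ofReal_re, mul_re, I_re, mul_zero, ofReal_im, I_im, mul_one, sub_self,
          add_zero] at hs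
        rw [Set.uIcc_of_le h12] at hs
        exact (hd s hs.1.1 hs.1.2).differentiableWithinAt)
    simp only [add_re, ofReal_re, mul_re, I_re, mul_zero, ofReal_im, I_im, mul_one, sub_self,
      add_zero, add_im, mul_im, zero_add] at hR
    have hbd : ∀ y : ℝ, |y| = T → ‖∫ x in σ1..σ2, H (x + y * I)‖ ≤ B / (1 + T) ^ 2 * (σ2 - σ1) := by
      intro y hy
      have := intervalIntegral.norm_integral_le_of_norm_le_const (a := σ1) (b := σ2)
        (C := B / (1 + T) ^ 2) (f := fun x : ℝ => H (x + y * I)) (by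
          intro x hx
          rw [Set.uIoc_of_le h12] at hx
          have h := hb (x + y * I) (by simpa using hx.1.le) (by simpa using hx.2)
          have him : ((x : ℂ) + y * I).im = y := by simp
          rw [him, hy] at h
          exact h)
      rwa [abs_of_nonneg (by linarith : (0 : ℝ) ≤ σ2 - σ1)] at this
    have h1 := hbd (-T) (by rw [abs_neg, abs_of_nonneg hT])
    have h2 := hbd T (abs_of_nonneg hT)
    have h3 : I • ((∫ u in (-T)..T, H (σ2 + u * I)) - ∫ u in (-T)..T, H (σ1 + u * I)) =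
        (∫ x in σ1..σ2, H (x + (T : ℝ) * I)) - ∫ x in σ1..σ2, H (x + ((-T : ℝ) : ℂ) * I) := by
      rw [smul_sub]
      linear_combination hR
    have h4 : ‖(∫ u in (-T)..T, H (σ2 + u * I)) - ∫ u in (-T)..T, H (σ1 + u * I)‖ =
        ‖(∫ x in σ1..σ2, H (x + (T : ℝ) * I)) - ∫ x in σ1..σ2, H (x + ((-T : ℝ) : ℂ) * I)‖ := by
      rw [← h3, norm_smul, Complex.norm_I, one_mul]
    rw [h4]
    refine (norm_sub_le _ _).trans ((add_le_add h2 h1).trans (le_of_eq ?_))
    ring
  have hz : Tendsto (fun T : ℝ => (∫ u in (-T)..T, H (σ2 + u * I)) -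
      ∫ u in (-T)..T, H (σ1 + u * I)) atTop (𝓝 0) := by
    apply squeeze_zero_norm' (a := fun T : ℝ => 2 * (B * (σ2 - σ1)) / (1 + T) ^ 2)
    · filter_upwards [eventually_ge_atTop (0 : ℝ)] with T hT
      exact hrect T hT
    · apply Tendsto.div_atTop tendsto_const_nhds
      exact (tendsto_pow_atTop (by norm_num)).comp (tendsto_atTop_add_const_left _ _ tendsto_id)
  have h5 := tendsto_nhds_unique (ht2.sub ht1) hz
  exact (sub_eq_zero.mp h5).symm

end Pool.Agent.N325.G
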