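import Pool.Agent.N967.G.StmA
import Pool.Agent.N325.G.KerCore

set_option autoImplicit false

/-!
# Project BD5 of helper967: `kerL` and `sh` (helper325)
-/

namespace Pool.Agent.N967.G

theorem kerL : S_kerL := Pool.Agent.N325.G.kerL0

theorem sh : S_sh := Pool.Agent.N325.G.sh0

end Pool.Agent.N967.G
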